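import Mathlib

namespace Pool.Agent.H.MP_ec23a5

open Finset

variable {α : Type} [Fintype α] [DecidableEq α]

def r (a : α) (ω : α → Bool) : ℝ := if ω a then 1 else -1

omit [Fintype α] [DecidableEq α] in
theorem r_sq (a : α) (ω : α → Bool) : r a ω ^ 2 = 1 := by
  unfold r
  split_ifs <;> simp

theorem odd (a : α) (F : (α → Bool) → ℝ) (h : ∀ ω, F (Function.update ω a (!ω a)) = F ω) :
    ∑ ω, F ω * r a ω = 0 := by
  have i : Function.Involutive fun ω : α → Bool => Function.update ω a (!ω a) := fun ω => by simp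
  have := Equiv.sum_comp i.toPerm fun ω => F ω * r a ω
  have e : ∀ ω : α → Bool, r a (Function.update ω a (!ω a)) = -r a ω := fun ω => by
    cases h : ω a <;> simp [r, h]
  simp only [Function.Involutive.coe_toPerm, h, e, mul_neg, sum_neg_distrib] at this
  linarith

theorem mom (w : α → ℝ) (s : Finset α) :
    ∑ ω, (∑ a ∈ s, w a * r a ω) ^ 2 = Fintype.card (α → Bool) * ∑ a ∈ s, w a ^ 2 ∧
    ∑ ω, (∑ a ∈ s, w a * r a ω) ^ 4 ≤ 3 * Fintype.card (α → Bool) * (∑ a ∈ s, w a ^ 2) ^ 2 := by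
  induction s using Finset.induction_on with
  | empty => simp
  | insert b s hb ih =>
    have e : ∀ ω : α → Bool, ∑ a ∈ s, w a * r a (Function.update ω b (!ω b)) =
        ∑ a ∈ s, w a * r a ω := fun ω => sum_congr rfl fun a ha => by
      simp only [r, Function.update_of_ne (ne_of_mem_of_not_mem ha hb)]
    have o1 := odd b (fun ω => ∑ a ∈ s, w a * r a ω) e
    have o3 := odd b (fun ω => (∑ a ∈ s, w a * r a ω) ^ 3) fun ω => by rw [e]
    simp only [sum_insert hb]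
    set c : ℝ := (Fintype.card (α → Bool) : ℝ)
    have c0 : 0 ≤ c := Nat.cast_nonneg _
    constructor
    · rw [sum_congr rfl (g := fun ω => w b ^ 2 + (2 * w b * ((∑ a ∈ s, w a * r a ω) * r b ω) +
        (∑ a ∈ s, w a * r a ω) ^ 2)) fun ω _ => by linear_combination w b ^ 2 * r_sq b ω]
      simp only [sum_add_distrib, ← mul_sum, o1, ih.1, sum_const, card_univ, nsmul_eq_mul]
      ring
    · rw [sum_congr rfl (g := fun ω => w b ^ 4 + (4 * w b ^ 3 * ((∑ a ∈ s, w a * r a ω) * r b ω) +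
        (6 * w b ^ 2 * (∑ a ∈ s, w a * r a ω) ^ 2 + (4 * w b * ((∑ a ∈ s, w a * r a ω) ^ 3 * r b ω) +
        (∑ a ∈ s, w a * r a ω) ^ 4)))) fun ω _ => by
          linear_combination (w b ^ 4 * (r b ω ^ 2 + 1) + 4 * w b ^ 3 * (∑ a ∈ s, w a * r a ω) * r b ω +
            6 * w b ^ 2 * (∑ a ∈ s, w a * r a ω) ^ 2) * r_sq b ω]
      simp only [sum_add_distrib, ← mul_sum, o1, o3, ih.1, sum_const, card_univ, nsmul_eq_mul]
      nlinarith [ih.2, mul_nonneg c0 (by positivity : 0 ≤ w b ^ 4)]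

theorem khin : ∃ (i : (α → ℝ) →ₗ[ℝ] ((α → Bool) → ℝ)) (q : ((α → Bool) → ℝ) →ₗ[ℝ] (α → ℝ)),
    (∀ w, q (i w) = w) ∧ (∀ w, ∑ ω, i w ω ^ 4 ≤ 3 * (∑ a, w a ^ 2) ^ 2) ∧
      ∀ u, (∑ a, q u a ^ 2) ^ 2 ≤ ∑ ω, u ω ^ 4 := by
  obtain ⟨ρ, ρ0, hρ⟩ : ∃ ρ : ℝ, 0 < ρ ∧ ρ ^ 4 = Fintype.card (α → Bool) :=
    ⟨_, Real.rpow_pos_of_pos (by simp) _,
      Real.rpow_inv_natCast_pow (Nat.cast_nonneg _) (by norm_num)⟩
  refine ⟨⟨⟨fun w ω => (∑ a, w a * r a ω) / ρ, fun v w => ?_⟩, fun t w => ?_⟩,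
    ⟨⟨fun u a => (∑ ω, u ω * r a ω) / ρ ^ 3, fun v w => ?_⟩, fun t w => ?_⟩, fun w => ?_,
    fun w => ?_, fun u => ?_⟩
  · ext ω
    simp [add_mul, sum_add_distrib, add_div]
  · ext ω
    simp [mul_assoc, ← mul_sum, mul_div_assoc]
  · ext ω
    simp [add_mul, sum_add_distrib, add_div]
  · ext ω
    simp [mul_assoc, ← mul_sum, mul_div_assoc]
  · ext a
    have o := odd a (fun ω => ∑ b ∈ univ.erase a, w b * r b ω) fun ω => sum_congr rfl fun b hb => by
      simp only [r, Function.update_of_ne (ne_of_mem_erase hb)]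
    simp only [LinearMap.coe_mk, AddHom.coe_mk]
    rw [sum_congr rfl (g := fun ω => ρ⁻¹ * (w a + (∑ b ∈ univ.erase a, w b * r b ω) * r a ω))
      fun ω _ => by
        rw [← add_sum_erase _ _ (mem_univ a)]
        linear_combination ρ⁻¹ * w a * r_sq a ω]
    simp only [← mul_sum, sum_add_distrib, o, sum_const, card_univ, nsmul_eq_mul, ← hρ]
    field_simp
    ring
  · simp only [LinearMap.coe_mk, AddHom.coe_mk, div_pow, ← sum_div]
    rw [div_le_iff₀ (by positivity), hρ]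
    exact (mom w univ).2.trans (le_of_eq (by ring))
  · simp only [LinearMap.coe_mk, AddHom.coe_mk]
    set v : α → ℝ := fun a => ∑ ω, u ω * r a ω
    have h1 := sum_mul_sq_le_sq_mul_sq univ u fun ω => ∑ a, v a * r a ω
    have h2 : ∑ ω, u ω * ∑ a, v a * r a ω = ∑ a, v a ^ 2 := by
      simp only [mul_sum]
      rw [sum_comm]
      exact sum_congr rfl fun a _ => by
        simp only [v, sq, mul_sum]
        exact sum_congr rfl fun ω _ => by ring
    rw [h2, (mom v univ).1, ← hρ] at h1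
    have h3 := sq_sum_le_card_mul_sum_sq (s := univ) (f := fun ω => u ω ^ 2)
    simp only [card_univ, ← hρ, ← pow_mul] at h3
    have s0 : 0 ≤ ∑ a, v a ^ 2 := by positivity
    have h4 : ∑ a, v a ^ 2 ≤ (∑ ω, u ω ^ 2) * ρ ^ 4 := by
      rcases s0.eq_or_lt with h | h
      · rw [← h]
        positivity
      · exact le_of_mul_le_mul_right (by linarith) h
    have h5 := pow_le_pow_left₀ s0 h4 2
    simp only [div_pow, ← sum_div]
    rw [div_le_iff₀ (by positivity)]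
    have := mul_le_mul_of_nonneg_right h3 (show 0 ≤ ρ ^ 8 by positivity)
    change (∑ a, v a ^ 2) ^ 2 ≤ _
    nlinarith

end Pool.Agent.H.MP_ec23a5
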