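import Mathlib

namespace Pool.Agent.H.MP_ec23a5

open Finset
open scoped ENNReal

noncomputable def sg {Γ : Type} (γ : Γ) : Γ → ℝ := ({γ} : Set Γ).indicator 1

@[simp] theorem sg_self {Γ : Type} (γ : Γ) : sg γ γ = 1 := by simp [sg]

theorem sg_ne {Γ : Type} {γ γ' : Γ} (h : γ' ≠ γ) : sg γ γ' = 0 := by simp [sg, h]

theorem sg_ite {Γ : Type} [DecidableEq Γ] (γ γ' : Γ) : sg γ γ' = if γ' = γ then 1 else 0 := by
  split_ifs with h
  · simp [h]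
  · exact sg_ne h

theorem sum_sg {Γ : Type} [DecidableEq Γ] (A : Finset Γ) (c : Γ → ℝ) :
    ∑ γ ∈ A, c γ • sg γ = fun γ => if γ ∈ A then c γ else 0 := by
  ext γ
  simp [Finset.sum_apply, sg_ite]

structure Sys (J Γ : Type) (M : ℝ) where
  Φ : (Γ → ℝ) →ₗ[ℝ] (J → ℝ)
  Ψ : (J → ℝ) →ₗ[ℝ] (Γ → ℝ)
  l : ∀ c, Ψ (Φ c) = c
  r : ∀ e, Φ (Ψ e) = e
  h2 : ∀ γ (T : Finset J), ∑ j ∈ T, Φ (sg γ) j ^ 4 ≤ M ^ 4
  h3 : ∀ γ, ∃ T : Finset J, ∀ e, Ψ e γ ^ 4 ≤ M ^ 4 * ∑ j ∈ T, e j ^ 4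
  h4 : ∀ j, (Function.support (Ψ (sg j))).Finite
  h5 : ∀ e c (t : ℝ), 0 ≤ t → (∀ γ, (c γ = Ψ e γ ∧ t ≤ |Ψ e γ|) ∨ (c γ = 0 ∧ |Ψ e γ| ≤ t)) →
    ∀ T : Finset J, ∃ T' : Finset J, ∑ j ∈ T, Φ c j ^ 4 ≤ M ^ 4 * ∑ j ∈ T', e j ^ 4

def Sys.Bad {J Γ : Type} {M : ℝ} (S : Sys J Γ M) (C : ℝ) : Prop :=
  ∃ (η : (J → ℝ) →ₗ[ℝ] ℝ) (T : Finset J) (D R : ℝ) (A : Finset Γ) (e₀ : J → ℝ), 0 ≤ D ∧ 0 ≤ R ∧
    (∀ e, η e ^ 4 ≤ D ^ 4 * ∑ j ∈ T, e j ^ 4) ∧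
    (∀ γ ∈ A, ∀ γ' ∉ A, |η (S.Φ (sg γ'))| ≤ |η (S.Φ (sg γ))|) ∧
    (∀ T' : Finset J, ∑ j ∈ T', e₀ j ^ 4 ≤ R ^ 4) ∧
    C * D * R < ∑ γ ∈ A, η (S.Φ (sg γ)) * S.Ψ e₀ γ

instance : Fact ((1 : ℝ≥0∞) ≤ 4) := ⟨by norm_num⟩

abbrev E := lp (fun _ : ℕ => ℝ) 4

theorem cv (x : ℝ) : ‖x‖ ^ (4 : ℝ≥0∞).toReal = x ^ 4 := by
  simp [Even.pow_abs (show Even 4 by decide)]

theorem r4 {x y : ℝ} (hy : 0 ≤ y) (h : x ^ 4 ≤ y ^ 4) : |x| ≤ y :=
  (pow_le_pow_iff_left₀ (abs_nonneg _) hy four_ne_zero).1 (by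
    rwa [Even.pow_abs (show Even 4 by decide)])

theorem exUp (J : Type) [Countable J] [Infinite J] : ∃ up : E →ₗ[ℝ] (J → ℝ),
    Function.Injective up ∧ (∀ e (T : Finset J), ∑ j ∈ T, up e j ^ 4 ≤ ‖e‖ ^ 4) ∧
    (∀ (g : J → ℝ) (R : ℝ), 0 ≤ R → (∀ T : Finset J, ∑ j ∈ T, g j ^ 4 ≤ R ^ 4) →
      ∃ e, up e = g ∧ ‖e‖ ≤ R) ∧
    ∀ U : Submodule ℝ E, (∀ j e, up e = sg j → e ∈ U) → Dense (U : Set E) := by
  obtain ⟨σ⟩ : Nonempty (J ≃ ℕ) := nonempty_equiv_of_countable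
  have p : 0 < (4 : ℝ≥0∞).toReal := by simp
  have c' : ∀ x : ℝ, 0 ≤ x → x ^ (4 : ℝ≥0∞).toReal = x ^ 4 := fun x hx => by
    rw [← cv, Real.norm_of_nonneg hx]
  refine ⟨⟨⟨fun e j => e (σ j), fun _ _ => rfl⟩, fun _ _ => rfl⟩, fun a b h => lp.ext ?_,
    fun e T => ?_, fun g R hR h => ?_, fun U h e => ?_⟩
  · ext n
    simpa using congrFun h (σ.symm n)
  · simpa only [cv, c' _ (norm_nonneg e), sum_map, Equiv.coe_toEmbedding, LinearMap.coe_mk,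
      AddHom.coe_mk] using lp.sum_rpow_le_norm_rpow p e (T.map σ.toEmbedding)
  · have k : ∀ s : Finset ℕ, ∑ i ∈ s, ‖g (σ.symm i)‖ ^ (4 : ℝ≥0∞).toReal ≤
        R ^ (4 : ℝ≥0∞).toReal := fun s => by
      simpa only [cv, c' _ hR, sum_map, Equiv.coe_toEmbedding] using h (s.map σ.symm.toEmbedding)
    exact ⟨⟨fun n => g (σ.symm n), memℓp_gen' k⟩, by ext j; simp,
      lp.norm_le_of_forall_sum_le p hR k⟩
  · refine mem_closure_of_tendsto (lp.hasSum_single (by simp) e) (.of_forall fun s =>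
      U.sum_mem fun n _ => ?_)
    have := U.smul_mem (e n) (h (σ.symm n) (lp.single 4 n 1) (by
      ext j
      by_cases k : j = σ.symm n
      · simp [k]
      · rw [sg_ne k]
        exact lp.single_apply_ne (E := fun _ : ℕ => ℝ) 4 n 1 fun k' => k (by simp [← k'])))
    rwa [← lp.single_smul, smul_eq_mul, mul_one] at this

theorem fin {J Γ : Type} [Countable J] [Infinite J] [Countable Γ] [Infinite Γ] {M : ℝ}
    (hM : 0 ≤ M) (S : Sys J Γ M) (hS : ∀ C, S.Bad C) : ∃ (x : ℕ → E) (f : ℕ → (E →L[ℝ] ℝ)),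
      (∀ m n : ℕ, f m (x n) = if m = n then 1 else 0) ∧
      Dense (Submodule.span ℝ (Set.range x) : Set E) ∧ (∃ M : ℝ, ∀ n : ℕ, ‖x n‖ ≤ M ∧ ‖f n‖ ≤ M) ∧
      (∃ C : ℝ, ∀ (y : E) (A : Finset ℕ), (∀ n ∈ A, ∀ k ∉ A, |f k y| ≤ |f n y|) →
        ‖∑ n ∈ A, f n y • x n‖ ≤ C * ‖y‖) ∧
      ¬ ∃ C : ℝ, ∀ (g : E →L[ℝ] ℝ) (A : Finset ℕ), (∀ n ∈ A, ∀ k ∉ A, |g (x k)| ≤ |g (x n)|) →
        ‖∑ n ∈ A, g (x n) • f n‖ ≤ C * ‖g‖ := by
  classical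
  obtain ⟨up, u1, u2, u3, u4⟩ := exUp J
  obtain ⟨σ⟩ : Nonempty (ℕ ≃ Γ) := nonempty_equiv_of_countable
  choose x hx hx' using fun γ => u3 (S.Φ (sg γ)) M hM (S.h2 γ)
  have bd : ∀ (η : (J → ℝ) →ₗ[ℝ] ℝ) (D : ℝ) (T : Finset J), 0 ≤ D →
      (∀ e, η e ^ 4 ≤ D ^ 4 * ∑ j ∈ T, e j ^ 4) → ∀ e, ‖(η ∘ₗ up) e‖ ≤ D * ‖e‖ :=
    fun η D T hD h e => r4 (by positivity) ((h _).trans (by
      rw [mul_pow]
      exact mul_le_mul_of_nonneg_left (u2 e T) (by positivity)))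
  have hb : ∀ γ e, ‖((LinearMap.proj γ ∘ₗ S.Ψ) ∘ₗ up) e‖ ≤ M * ‖e‖ := fun γ =>
    (S.h3 γ).elim fun T h => bd _ M T hM h
  let f : Γ → E →L[ℝ] ℝ := fun γ => LinearMap.mkContinuous _ M (hb γ)
  have hf : ∀ γ e, f γ e = S.Ψ (up e) γ := fun _ _ => rfl
  have hs : ∀ (A : Finset Γ) (c : Γ → ℝ), up (∑ γ ∈ A, c γ • x γ) =
      S.Φ fun γ => if γ ∈ A then c γ else 0 := fun A c => by
    simp only [← sum_sg, map_sum, map_smul, hx]
  refine ⟨x ∘ σ, f ∘ σ, fun m n => ?_, u4 _ fun j e he => ?_,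
    ⟨M, fun n => ⟨hx' _, LinearMap.mkContinuous_norm_le _ hM (hb _)⟩⟩, ⟨M, fun y A hA => ?_⟩, ?_⟩
  · simp [hf, hx, S.l, sg_ite]
  · have : e = ∑ γ ∈ (S.h4 j).toFinset, S.Ψ (sg j) γ • x γ := u1 (by
      rw [hs, he]
      refine (S.r _).symm.trans (congrArg _ ?_)
      ext γ
      simp only [Set.Finite.mem_toFinset, Function.mem_support, ne_eq, ite_not]
      split_ifs with h
      exacts [h, rfl])
    rw [this]
    exact Submodule.sum_mem _ fun γ _ => Submodule.smul_mem _ _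
      (Submodule.subset_span ⟨σ.symm γ, by simp⟩)
  · rcases A.eq_empty_or_nonempty with rfl | hne
    · simpa using mul_nonneg hM (norm_nonneg y)
    obtain ⟨n₀, h₀, h₁⟩ := A.exists_min_image (fun n => |f (σ n) y|) hne
    obtain ⟨e, he, he'⟩ := u3 (S.Φ fun γ => if γ ∈ A.map σ.toEmbedding then f γ y else 0)
      (M * ‖y‖) (by positivity) fun T => by
        obtain ⟨T', h⟩ := S.h5 (up y) (fun γ => if γ ∈ A.map σ.toEmbedding then f γ y else 0)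
          |f (σ n₀) y| (abs_nonneg _) (fun γ => by
            obtain ⟨n, rfl⟩ := σ.surjective γ
            by_cases k : n ∈ A
            · exact Or.inl ⟨if_pos (mem_map_of_mem _ k), h₁ n k⟩
            · exact Or.inr ⟨if_neg (by simpa using k), hA n₀ h₀ n k⟩) T
        rw [mul_pow]
        exact h.trans (mul_le_mul_of_nonneg_left (u2 y T') (by positivity))
    rw [← hs, sum_map] at he
    rw [u1 he] at he'
    exact he'
  · rintro ⟨C, hC⟩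
    obtain ⟨η, T, D, R, A, e₀, hD, hR, b1, b2, b3, b4⟩ := hS |C|
    obtain ⟨e, rfl, he⟩ := u3 e₀ R hR b3
    let g : E →L[ℝ] ℝ := LinearMap.mkContinuous _ D (bd η D T hD b1)
    have hg : ∀ γ, g (x γ) = η (S.Φ (sg γ)) := fun γ => congrArg η (hx γ)
    have k := hC g (A.map σ.symm.toEmbedding) fun n hn k hk => by
      simp only [Function.comp, hg]
      exact b2 _ (by simpa using hn) _ (by simpa using hk)
    have k2 := (le_abs_self _).trans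
      ((∑ n ∈ A.map σ.symm.toEmbedding, g ((x ∘ σ) n) • (f ∘ σ) n).le_of_opNorm_le_of_le
        (k.trans (mul_le_mul (le_abs_self C) (LinearMap.mkContinuous_norm_le _ hD _)
          (norm_nonneg _) (abs_nonneg _))) he)
    simp only [sum_map, Equiv.coe_toEmbedding, Function.comp, Equiv.apply_symm_apply, hg,
      _root_.sum_apply, _root_.smul_apply, hf, smul_eq_mul] at k2
    exact absurd b4 (not_lt.2 k2)

variable {J Γ : ℕ → Type} {M : ℝ}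

theorem sg_sig (K K' : ℕ) (γ : Γ K) : (fun γ' : Γ K' => sg (⟨K, γ⟩ : Σ K, Γ K) ⟨K', γ'⟩) =
    if h : K = K' then sg (h ▸ γ) else 0 := by
  ext γ'
  split_ifs with h
  · subst h
    by_cases k : γ' = γ
    · simp [k]
    · rw [sg_ne k, sg_ne (by simpa using k)]
  · exact sg_ne fun k => h (congrArg Sigma.fst k).symm

theorem sum_sig (T : Finset (Σ K, J K)) (F : (Σ K, J K) → ℝ) : ∑ j ∈ T, F j =
    ∑ K ∈ T.image Sigma.fst, ∑ j ∈ T.preimage (Sigma.mk K) sigma_mk_injective.injOn, F ⟨K, j⟩ := by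
  rw [← sum_sigma, sigma_image_fst_preimage_mk]

noncomputable def sig (hM : 0 ≤ M) (S : ∀ K, Sys (J K) (Γ K) M) :
    Sys (Σ K, J K) (Σ K, Γ K) M where
  Φ := ⟨⟨fun c j => (S j.1).Φ (fun γ => c ⟨j.1, γ⟩) j.2, fun a b => funext fun j =>
    congrFun ((S j.1).Φ.map_add _ _) _⟩, fun a b => funext fun j =>
    congrFun ((S j.1).Φ.map_smul a _) _⟩
  Ψ := ⟨⟨fun c j => (S j.1).Ψ (fun γ => c ⟨j.1, γ⟩) j.2, fun a b => funext fun j =>
    congrFun ((S j.1).Ψ.map_add _ _) _⟩, fun a b => funext fun j =>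
    congrFun ((S j.1).Ψ.map_smul a _) _⟩
  l := fun c => funext fun j => congrFun ((S j.1).l fun γ => c ⟨j.1, γ⟩) j.2
  r := fun c => funext fun j => congrFun ((S j.1).r fun γ => c ⟨j.1, γ⟩) j.2
  h2 := fun ⟨K, γ⟩ T => by
    rw [sum_sig]
    simp only [LinearMap.coe_mk, AddHom.coe_mk, sg_sig]
    rw [sum_eq_single K (fun K' _ h => by simp [h.symm]) fun h => ?_]
    · simpa using (S K).h2 γ _
    · refine sum_eq_zero fun j hj => absurd (mem_image_of_mem Sigma.fst (mem_preimage.1 hj)) h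
  h3 := fun ⟨K, γ⟩ => ((S K).h3 γ).elim fun T h =>
    ⟨T.map (Function.Embedding.sigmaMk K), fun e => by
      rw [sum_map]
      exact h _⟩
  h4 := fun ⟨K, j⟩ => (((S K).h4 j).image (Sigma.mk K)).subset fun ⟨K', γ⟩ h => by
    simp only [Function.mem_support, LinearMap.coe_mk, AddHom.coe_mk, sg_sig] at h
    split_ifs at h with k
    · subst k
      exact ⟨γ, h, rfl⟩
    · simp at h
  h5 := fun e c t ht h T => by
    choose T' hT using fun K => (S K).h5 (fun j => e ⟨K, j⟩) (fun γ => c ⟨K, γ⟩) t ht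
      (fun γ => h ⟨K, γ⟩) (T.preimage (Sigma.mk K) sigma_mk_injective.injOn)
    refine ⟨(T.image Sigma.fst).sigma T', ?_⟩
    rw [sum_sig, sum_sigma, mul_sum]
    exact sum_le_sum fun K _ => hT K

theorem sig_bad (hM : 0 ≤ M) (S : ∀ K, Sys (J K) (Γ K) M) (K : ℕ) {C : ℝ} (h : (S K).Bad C) :
    (sig hM S).Bad C := by
  obtain ⟨η, T, D, R, A, e₀, hD, hR, b1, b2, b3, b4⟩ := h
  have k : ∀ γ : Σ K, Γ K, (η ∘ₗ LinearMap.funLeft ℝ ℝ (Sigma.mk K)) ((sig hM S).Φ (sg γ)) =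
      η ((S K).Φ fun γ' => sg γ ⟨K, γ'⟩) := fun _ => congrArg η rfl
  refine ⟨η ∘ₗ LinearMap.funLeft ℝ ℝ (Sigma.mk K), T.map (Function.Embedding.sigmaMk K), D, R,
    A.map (Function.Embedding.sigmaMk K), fun j => if h : j.1 = K then e₀ (h ▸ j.2) else 0, hD, hR,
    fun e => ?_, fun γ hγ ⟨K', γ'⟩ h' => ?_, fun T' => ?_, ?_⟩
  · rw [sum_map]
    exact b1 _
  · obtain ⟨γ, hγ', rfl⟩ := mem_map.1 hγ
    simp only [k, Function.Embedding.sigmaMk_apply, sg_sig, dif_pos]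
    split_ifs with e
    · subst e
      exact b2 γ hγ' γ' fun a => h' (mem_map_of_mem _ a)
    · simp
  · rw [sum_sig, sum_eq_single K (fun K' _ h => by simp [h]) fun h => ?_]
    · simpa using b3 _
    · refine sum_eq_zero fun j hj => absurd (mem_image_of_mem Sigma.fst (mem_preimage.1 hj)) h
  · rw [sum_map]
    simp only [k, Function.Embedding.sigmaMk_apply, sg_sig, dif_pos]
    simpa [sig] using b4

end Pool.Agent.H.MP_ec23a5
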