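import Pool.Agent.H.MP_ec23a5.B

namespace Pool.Agent.H.MP_ec23a5

open Finset Sum
open LinearMap (funLeft proj)

variable {α β Ω : Type} (S : (β → ℝ) →ₗ[ℝ] (α → ℝ)) (i : (α → ℝ) →ₗ[ℝ] (Ω → ℝ))
  (q : (Ω → ℝ) →ₗ[ℝ] (α → ℝ))

def Xc : (α ⊕ (β ⊕ ℕ × Ω) → ℝ) →ₗ[ℝ] (α → ℝ) := funLeft ℝ ℝ inl

def Rc : (α ⊕ (β ⊕ ℕ × Ω) → ℝ) →ₗ[ℝ] (β ⊕ ℕ × Ω → ℝ) := funLeft ℝ ℝ inr

def Ye : (β ⊕ ℕ × Ω → ℝ) →ₗ[ℝ] (β → ℝ) := funLeft ℝ ℝ inl

def Ee (m : ℕ) : (β ⊕ ℕ × Ω → ℝ) →ₗ[ℝ] (Ω → ℝ) := funLeft ℝ ℝ fun ω => inr (m, ω)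

def Pc : ℕ → (α ⊕ (β ⊕ ℕ × Ω) → ℝ) →ₗ[ℝ] (α → ℝ)
  | 0 => Xc - S ∘ₗ Ye ∘ₗ Rc
  | m + 1 => q ∘ₗ Ee m ∘ₗ Rc

def Ph : (α ⊕ (β ⊕ ℕ × Ω) → ℝ) →ₗ[ℝ] (β ⊕ ℕ × Ω → ℝ) :=
  LinearMap.pi (Sum.elim (fun b => proj (inr (inl b))) fun p =>
    proj p.2 ∘ₗ (Ee p.1 ∘ₗ Rc + i ∘ₗ (Pc S q p.1 - q ∘ₗ Ee p.1 ∘ₗ Rc)))

def Ps : (β ⊕ ℕ × Ω → ℝ) →ₗ[ℝ] (α ⊕ (β ⊕ ℕ × Ω) → ℝ) :=
  LinearMap.pi (Sum.elim (fun a => proj a ∘ₗ (q ∘ₗ Ee 0 + S ∘ₗ Ye)) (Sum.elim (fun b => proj (inl b))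
    fun p => proj p.2 ∘ₗ (Ee p.1 + i ∘ₗ (q ∘ₗ Ee (p.1 + 1) - q ∘ₗ Ee p.1))))

theorem Ph1 (c) : Ye (Ph S i q c) = Ye (Rc c) := rfl

theorem Ph2 (c) (m : ℕ) :
    Ee m (Ph S i q c) = Ee m (Rc c) + i (Pc S q m c - q (Ee m (Rc c))) := rfl

theorem Ps1 (e) : Xc (Ps S i q e) = q (Ee 0 e) + S (Ye e) := rfl

theorem Ps2 (e) : Ye (Rc (Ps S i q e)) = Ye e := rfl

theorem Ps3 (e) (m : ℕ) :
    Ee m (Rc (Ps S i q e)) = Ee m e + i (q (Ee (m + 1) e) - q (Ee m e)) := rfl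

theorem Pc0 (c) : Pc S q 0 c = Xc c - S (Ye (Rc c)) := rfl

theorem Pc1 (c) (m : ℕ) : Pc S q (m + 1) c = q (Ee m (Rc c)) := rfl

theorem extE {e e' : β ⊕ ℕ × Ω → ℝ} (h1 : Ye e = Ye e') (h2 : ∀ m, Ee m e = Ee m e') : e = e' :=
  funext fun j => j.casesOn (congrFun h1) fun p => congrFun (h2 p.1) p.2

theorem extC {c c' : α ⊕ (β ⊕ ℕ × Ω) → ℝ} (h1 : Xc c = Xc c') (h2 : Rc c = Rc c') : c = c' :=
  funext fun j => j.casesOn (congrFun h1) (congrFun h2)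

variable [Fintype α] [Fintype β] [Fintype Ω]

def TT (β Ω : Type) [Fintype β] [Fintype Ω] (M : ℕ) : Finset (β ⊕ ℕ × Ω) :=
  univ.disjSum (range M ×ˢ univ)

theorem sum_TT (e : β ⊕ ℕ × Ω → ℝ) (M : ℕ) : ∑ j ∈ TT β Ω M, e j ^ 4 =
    ∑ b, Ye e b ^ 4 + ∑ m ∈ range M, ∑ ω, Ee m e ω ^ 4 := by
  rw [TT, sum_disjSum, sum_product]
  rfl

theorem le_TT (T : Finset (β ⊕ ℕ × Ω)) : ∃ M, ∀ e : β ⊕ ℕ × Ω → ℝ,
    ∑ j ∈ T, e j ^ 4 ≤ ∑ j ∈ TT β Ω M, e j ^ 4 := by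
  refine ⟨T.sup (Sum.elim 0 Prod.fst) + 1, fun e =>
    sum_le_sum_of_subset_of_nonneg (fun j hj => ?_) fun _ _ _ => by positivity⟩
  have := le_sup (f := Sum.elim (0 : β → ℕ) Prod.fst) hj
  rcases j with b | p
  · simp [TT]
  · simpa [TT, Nat.lt_succ_iff] using this

variable {i q} (hq : ∀ w, q (i w) = w) (hi : ∀ w, ∑ ω, i w ω ^ 4 ≤ 3 * (∑ a, w a ^ 2) ^ 2)
  (hq' : ∀ u, (∑ a, q u a ^ 2) ^ 2 ≤ ∑ ω, u ω ^ 4)

include hi hq' in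
theorem tri (u : Ω → ℝ) (w : α → ℝ) :
    ∑ ω, (u + i (w - q u)) ω ^ 4 ≤ 108 * ∑ ω, u ω ^ 4 + 81 * (∑ a, w a ^ 2) ^ 2 := by
  have : ∀ ω, (u + i (w - q u)) ω ^ 4 ≤ 27 * (u ω ^ 4 + i w ω ^ 4 + i (q u) ω ^ 4) := fun ω => by
    have := pow_sum_le_card_mul_sum_pow (s := (univ : Finset (Fin 3)))
      (f := ![|u ω|, |i w ω|, |i (q u) ω|]) (fun k _ => by fin_cases k <;> simp) 3
    simp only [Fin.sum_univ_three, Matrix.cons_val, card_univ, Fintype.card_fin,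
      Even.pow_abs (show Even (3 + 1) by decide)] at this
    rw [← Even.pow_abs (show Even 4 by decide)]
    refine (pow_le_pow_left₀ (abs_nonneg _) ?_ 4).trans (this.trans (le_of_eq (by norm_num)))
    rw [map_sub, add_assoc]
    exact (abs_add_le _ _).trans (add_le_add le_rfl (abs_sub _ _))
  refine (sum_le_sum fun ω _ => this ω).trans ?_
  rw [← mul_sum, sum_add_distrib, sum_add_distrib]
  linarith [hi w, hi (q u), hq' u]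

include hi hq' in
theorem upper (c : α ⊕ (β ⊕ ℕ × Ω) → ℝ) (M : ℕ) : ∑ j ∈ TT β Ω M, Ph S i q c j ^ 4 ≤
    81 * (∑ a, (Xc c - S (Ye (Rc c))) a ^ 2) ^ 2 + 189 * ∑ j ∈ TT β Ω M, Rc c j ^ 4 := by
  simp only [sum_TT, Ph1, Ph2]
  have a := sum_le_sum (s := range M) fun m _ => tri hi hq' (Ee m (Rc c)) (Pc S q m c)
  have b : ∑ m ∈ range M, (∑ a, Pc S q m c a ^ 2) ^ 2 ≤ (∑ a, (Xc c - S (Ye (Rc c))) a ^ 2) ^ 2 +
      ∑ m ∈ range M, ∑ ω, Ee m (Rc c) ω ^ 4 := by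
    refine (sum_le_sum_of_subset_of_nonneg (range_subset_range.2 (Nat.le_succ M))
      fun _ _ _ => sq_nonneg _).trans ?_
    rw [sum_range_succ', add_comm]
    exact add_le_add le_rfl (sum_le_sum fun m _ => hq' _)
  rw [sum_add_distrib, ← mul_sum, ← mul_sum] at a
  have : 0 ≤ ∑ b, Ye (Rc c) b ^ 4 := by positivity
  linarith

include hi hq' in
theorem lower (e : β ⊕ ℕ × Ω → ℝ) (M : ℕ) : ∑ j ∈ TT β Ω M, Rc (Ps S i q e) j ^ 4 ≤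
    189 * ∑ j ∈ TT β Ω (M + 1), e j ^ 4 := by
  simp only [sum_TT, Ps2, Ps3]
  have a := sum_le_sum (s := range M) fun m _ => tri hi hq' (Ee m e) (q (Ee (m + 1) e))
  have b := sum_le_sum (s := range M) fun m _ => hq' (Ee (m + 1) e)
  have c1 := sum_range_succ (fun m => ∑ ω, Ee m e ω ^ 4) M
  have c2 := sum_range_succ' (fun m => ∑ ω, Ee m e ω ^ 4) M
  rw [sum_add_distrib, ← mul_sum, ← mul_sum] at a
  have : 0 ≤ ∑ b, Ye e b ^ 4 := by positivity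
  have : 0 ≤ ∑ ω, Ee M e ω ^ 4 := by positivity
  have : 0 ≤ ∑ ω, Ee 0 e ω ^ 4 := by positivity
  linarith

omit [Fintype α] in
theorem z_le (e : β ⊕ ℕ × Ω → ℝ) (M : ℕ) :
    ∑ b, Ye e b ^ 4 + ∑ ω, Ee 0 e ω ^ 4 ≤ ∑ j ∈ TT β Ω (M + 1), e j ^ 4 := by
  rw [sum_TT, sum_range_succ']
  have : 0 ≤ ∑ m ∈ range M, ∑ ω, Ee (m + 1) e ω ^ 4 := by positivity
  linarith

theorem sg_sum {Γ : Type} (γ : Γ) (T : Finset Γ) {n : ℕ} (hn : n ≠ 0) :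
    ∑ j ∈ T, sg γ j ^ n ≤ 1 := by
  classical
  simp only [sg_ite, ite_pow, one_pow, zero_pow hn, sum_ite_eq']
  split_ifs <;> simp

theorem sg_comp {Γ Γ' : Type} {f : Γ' → Γ} (hf : Function.Injective f) (γ : Γ') :
    (fun x => sg (f γ) (f x)) = sg γ := by
  classical
  ext x
  simp [sg_ite, hf.eq_iff]

theorem sg_zero {Γ Γ' : Type} {f : Γ' → Γ} {γ : Γ} (h : ∀ x, f x ≠ γ) :
    (fun x => sg γ (f x)) = 0 := funext fun x => sg_ne (h x)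

variable (S1 : ∀ y a, S y a ^ 4 ≤ ∑ b, y b ^ 4) (S2 : ∀ b, ∑ a, S (sg b) a ^ 2 ≤ 1)
  (S3 : ∀ (x x' : α → ℝ) (y y' : β → ℝ) (t : ℝ), 0 ≤ t →
    (∀ a, (x' a = x a ∧ t ≤ |x a|) ∨ (x' a = 0 ∧ |x a| ≤ t)) →
    (∀ a, (y' a = y a ∧ t ≤ |y a|) ∨ (y' a = 0 ∧ |y a| ≤ t)) →
    (∑ a, (x' - S y') a ^ 2) ^ 2 ≤ 10000 * ((∑ a, (x - S y) a ^ 2) ^ 2 + ∑ b, y b ^ 4))

noncomputable def blk : Sys (β ⊕ ℕ × Ω) (α ⊕ (β ⊕ ℕ × Ω)) 100 where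
  Φ := Ph S i q
  Ψ := Ps S i q
  l := fun c => extC (by simp [Ps1, Ph1, Ph2, hq, Pc0])
    (extE rfl fun m => by simp [Ps3, Ph2, hq, Pc1, add_assoc])
  r := fun e => extE rfl fun m => by cases m <;> simp [Ps1, Ps2, Ps3, Ph2, hq, Pc0, Pc1, add_assoc]
  h2 := fun γ T => by
    obtain ⟨M, hM⟩ := le_TT T
    refine (hM _).trans ((upper S hi hq' _ M).trans ?_)
    have ha : ∑ j ∈ TT β Ω M, Rc (sg γ) j ^ 4 ≤ 1 := by
      simpa [Rc] using sg_sum γ ((TT β Ω M).map Function.Embedding.inr) four_ne_zero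
    have b : ∑ a, (Xc (sg γ) - S (Ye (Rc (sg γ)))) a ^ 2 ≤ 1 := by
      rcases γ with a | b | p
      · rw [show Xc (sg (inl a)) = sg a from sg_comp inl_injective a,
          show Ye (Rc (sg (inl a))) = 0 from sg_zero (by simp), map_zero, sub_zero]
        exact sg_sum _ _ two_ne_zero
      · rw [show Xc (sg (inr (inl b))) = 0 from sg_zero (by simp), show Ye (Rc (sg (inr (inl b)))) =
          sg b from sg_comp (inr_injective.comp inl_injective) b]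
        simpa using S2 b
      · rw [show Xc (sg (inr (inr p))) = 0 from sg_zero (by simp),
          show Ye (Rc (sg (inr (inr p)))) = 0 from sg_zero (by simp)]
        simp
    have := pow_le_one₀ (n := 2) (by positivity) b
    linarith
  h3 := fun γ => by
    rcases γ with a | j
    · refine ⟨TT β Ω (0 + 1), fun e => ?_⟩
      have a1 := z_le e 0
      have a2 := S1 (Ye e) a
      have a3 := (pow_le_pow_left₀ (sq_nonneg _) (single_le_sum (f := fun a => q (Ee 0 e) a ^ 2)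
        (fun _ _ => sq_nonneg _) (mem_univ a)) 2).trans (hq' (Ee 0 e))
      have a4 := Even.add_pow_le (show Even 4 by decide) (a := q (Ee 0 e) a) (b := S (Ye e) a)
      have : 0 ≤ ∑ j ∈ TT β Ω (0 + 1), e j ^ 4 := by positivity
      show (q (Ee 0 e) a + S (Ye e) a) ^ 4 ≤ _
      rw [← pow_mul] at a3
      norm_num at a3 a4
      linarith
    · obtain ⟨M, hM⟩ := le_TT {j}
      refine ⟨TT β Ω (M + 1), fun e => ?_⟩
      have a1 := (hM _).trans (lower S hi hq' e M)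
      have : 0 ≤ ∑ j ∈ TT β Ω (M + 1), e j ^ 4 := by positivity
      rw [sum_singleton] at a1
      exact a1.trans (by linarith)
  h4 := fun j => by
    obtain ⟨M, hM⟩ : ∃ M, ∀ m, M ≤ m → Ee m (sg j) = 0 := ⟨Sum.elim (0 : β → ℕ) Prod.fst j + 1,
      fun m hm => sg_zero fun ω h => by subst h; simp at hm⟩
    refine ((univ : Finset α).disjSum (TT β Ω M)).finite_toSet.subset fun γ h => ?_
    rcases γ with a | b | ⟨m, ω⟩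
    · simp
    · simp [TT]
    · have : m < M := not_le.1 fun k => h (by
        refine (congrFun (Ps3 S i q (sg j) m) ω).trans ?_
        simp [hM m k, hM (m + 1) (k.trans (Nat.le_succ m))])
      simp [TT, this]
  h5 := fun e c t ht h T => by
    obtain ⟨M, hM⟩ := le_TT T
    refine ⟨TT β Ω (M + 1), (hM _).trans ((upper S hi hq' _ M).trans ?_)⟩
    have a1 := S3 (Xc (Ps S i q e)) (Xc c) (Ye e) (Ye (Rc c)) t ht (fun a => h (inl a))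
      fun b => h (inr (inl b))
    have a2 : ∑ j ∈ TT β Ω M, Rc c j ^ 4 ≤ ∑ j ∈ TT β Ω M, Rc (Ps S i q e) j ^ 4 :=
      sum_le_sum fun j _ => by
        rcases h (inr j) with k | k
        · exact le_of_eq (congrArg (· ^ 4) k.1)
        · rw [show Rc c j = 0 from k.1, zero_pow four_ne_zero]
          positivity
    have a3 := lower S hi hq' e M
    have a4 := z_le e M
    have a5 := hq' (Ee 0 e)
    have : 0 ≤ ∑ j ∈ TT β Ω (M + 1), e j ^ 4 := by positivity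
    rw [Ps1, add_sub_cancel_right] at a1
    linarith

end Pool.Agent.H.MP_ec23a5
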