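import Pool.Agent.H.MP_ec23a5.A
import Pool.Agent.H.MP_ec23a5.C

namespace Pool.Agent.H.MP_ec23a5

open Finset Sum

theorem pm {B : Type} [Fintype B] {l : ℝ} (hl : 0 < l) (hB : (Fintype.card B : ℝ) = l ^ 4)
    (y : B → ℝ) : (l * ((∑ b, y b) / l ^ 4)) ^ 4 ≤ ∑ b, y b ^ 4 := by
  have := pow_sum_le_card_mul_sum_pow (s := univ) (f := fun b => |y b|)
    (fun _ _ => abs_nonneg _) 3
  simp only [card_univ, hB, Even.pow_abs (show Even (3 + 1) by decide)] at this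
  have h := (pow_le_pow_left₀ (abs_nonneg _) (abs_sum_le_sum_abs y univ) 4).trans this
  rw [Even.pow_abs (show Even 4 by decide)] at h
  rw [show (l * ((∑ b, y b) / l ^ 4)) ^ 4 = (∑ b, y b) ^ 4 / (l ^ 4) ^ 3 by field_simp,
    div_le_iff₀' (by positivity)]
  exact h

theorem one {A B : Type} [Fintype A] [Fintype B] {l t n : ℝ} (hl : 0 < l) (ht : 0 ≤ t) (hn : 0 ≤ n)
    (hA : (Fintype.card A : ℝ) = l ^ 2) (hB : (Fintype.card B : ℝ) = l ^ 4) (x x' : A → ℝ)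
    (y y' : B → ℝ) (hx : ∀ a, (x' a = x a ∧ t ≤ |x a|) ∨ (x' a = 0 ∧ |x a| ≤ t))
    (hy : ∀ a, (y' a = y a ∧ t ≤ |y a|) ∨ (y' a = 0 ∧ |y a| ≤ t)) (hN : ∑ b, y b ^ 4 ≤ n ^ 4) :
    ∑ a, (x' a - (∑ b, y' b) / l ^ 4) ^ 2 ≤ 9 * ∑ a, (x a - (∑ b, y b) / l ^ 4) ^ 2 +
      (8 * (if t * l ≤ 2 * n then (t * l) ^ 2 else 0) + (∑ b, y b ^ 4) / n ^ 2) := by
  have f1 : |(∑ b, y b) / l ^ 4 - (∑ b, y' b) / l ^ 4| ≤ t := by
    rw [← sub_div, ← sum_sub_distrib, abs_div, abs_of_pos (pow_pos hl 4), div_le_iff₀ (pow_pos hl 4)]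
    refine (abs_sum_le_sum_abs _ _).trans ((sum_le_card_nsmul _ _ t fun b _ => ?_).trans
      (by simp [hB, mul_comm]))
    rcases hy b with h | h <;> simp [h.1, ht, h.2]
  have f2 := r4 hn ((pm hl hB y).trans hN)
  have f2' := r4 hn ((pm hl hB y').trans ((sum_le_sum fun b _ => by
    rcases hy b with h | h
    · rw [h.1]
    · rw [h.1, zero_pow four_ne_zero]
      positivity).trans hN))
  have f3 : t ^ 3 * |∑ b, y' b| ≤ ∑ b, y b ^ 4 := by
    refine (mul_le_mul_of_nonneg_left (abs_sum_le_sum_abs _ _) (by positivity)).trans ?_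
    rw [mul_sum]
    refine sum_le_sum fun b _ => ?_
    rcases hy b with h | h
    · rw [h.1, ← Even.pow_abs (show Even 4 by decide), pow_succ |y b| 3]
      exact mul_le_mul_of_nonneg_right (pow_le_pow_left₀ ht h.2 3) (abs_nonneg _)
    · simp only [h.1, abs_zero, mul_zero]
      positivity
  have N0 : 0 ≤ (∑ b, y b ^ 4) / n ^ 2 := by positivity
  set m := (∑ b, y b) / l ^ 4
  set m' := (∑ b, y' b) / l ^ 4 with hm'
  rw [abs_le] at f1
  split_ifs with h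
  · have : ∀ a, (x' a - m') ^ 2 ≤ 9 * (x a - m) ^ 2 + 8 * t ^ 2 := fun a => by
      rcases hx a with k | k
      · rw [k.1]
        nlinarith [sq_nonneg (x a - m), sq_nonneg (x a - m - (m - m')), abs_le_abs f1.2 (by linarith),
          mul_nonneg (sub_nonneg.2 f1.2) (sub_nonneg.2 f1.1)]
      · have k2 := abs_le.1 k.2
        rw [k.1]
        nlinarith [sq_nonneg (x a - m), sq_nonneg (x a - m + (x a - (m - m'))),
          mul_nonneg (show 0 ≤ 2 * t - (x a - (m - m')) by linarith)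
            (show 0 ≤ 2 * t + (x a - (m - m')) by linarith)]
    refine (sum_le_sum fun a _ => this a).trans ?_
    simp only [sum_add_distrib, ← mul_sum, sum_const, card_univ, nsmul_eq_mul, hA]
    linarith
  · have h := not_le.1 h
    have g1 : |m| ≤ t / 2 := by
      rw [abs_mul, abs_of_pos hl] at f2
      exact le_of_mul_le_mul_left (by linarith) hl
    have : ∀ a, (x' a - m') ^ 2 ≤ 9 * (x a - m) ^ 2 + m' ^ 2 := fun a => by
      rcases hx a with k | k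
      · have k1 := abs_add_le (x a - m) m
        have k2 := abs_add_le (x a - m) (m - m')
        rw [sub_add_cancel] at k1
        rw [sub_add_sub_cancel] at k2
        have k3 := pow_le_pow_left₀ (abs_nonneg _)
          (show |x a - m'| ≤ 3 * |x a - m| by linarith [abs_le.2 f1, k.2]) 2
        rw [mul_pow, sq_abs, sq_abs] at k3
        rw [k.1]
        linarith [sq_nonneg m']
      · rw [k.1]
        nlinarith [sq_nonneg (x a - m)]
    refine (sum_le_sum fun a _ => this a).trans ?_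
    simp only [sum_add_distrib, ← mul_sum, sum_const, card_univ, nsmul_eq_mul, hA, mul_zero,
      zero_add]
    refine add_le_add le_rfl ?_
    rw [← mul_pow, ← sq_abs]
    rcases hn.eq_or_lt with rfl | n0
    · rw [le_antisymm f2' (abs_nonneg _)]
      simp
    have e : |l * m'| * (t * l) ^ 3 = t ^ 3 * |∑ b, y' b| := by
      rw [hm', abs_mul, abs_div, abs_of_pos hl, abs_of_pos (pow_pos hl 4)]
      field_simp
    have g2 := mul_le_mul_of_nonneg_left (pow_le_pow_left₀ (by positivity) h.le 3)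
      (abs_nonneg (l * m'))
    rw [le_div_iff₀ (by positivity)]
    nlinarith [mul_le_mul_of_nonneg_left f2' (show 0 ≤ |l * m'| * n ^ 2 by positivity),
      (show 0 ≤ |l * m'| * n ^ 3 by positivity)]

theorem geo {s R : ℝ} (hs : 0 ≤ s) (K : ℕ) :
    ∑ k ∈ range K, (if s * 2 ^ k ≤ R then (s * 2 ^ k) ^ 2 else 0) ≤ 2 * R ^ 2 := by
  have a : ∀ K, ∑ k ∈ range K, (s * 2 ^ k) ^ 2 ≤ (s * 2 ^ K) ^ 2 := fun K => by
    induction K with
    | zero => simpa using sq_nonneg s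
    | succ K ih =>
      rw [sum_range_succ, pow_succ 2 K]
      nlinarith [sq_nonneg (s * 2 ^ K)]
  induction K with
  | zero => simpa using sq_nonneg R
  | succ K ih =>
    rw [sum_range_succ]
    split_ifs with h
    · have := (sum_le_sum (s := range K) fun k _ => show (if s * 2 ^ k ≤ R then (s * 2 ^ k) ^ 2
        else 0) ≤ (s * 2 ^ k) ^ 2 by split_ifs <;> [rfl; positivity]).trans (a K)
      have := pow_le_pow_left₀ (by positivity) h 2
      linarith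
    · simpa using ih

abbrev α (K : ℕ) := Σ k : Fin K, Fin (4 ^ (K + k))

abbrev β (K : ℕ) := Σ k : Fin K, Fin (16 ^ (K + k))

noncomputable def SS (K : ℕ) : (β K → ℝ) →ₗ[ℝ] (α K → ℝ) where
  toFun y a := (∑ j, y ⟨a.1, j⟩) / (2 ^ (K + a.1)) ^ 4
  map_add' y z := by
    ext a
    simp [sum_add_distrib, add_div]
  map_smul' t z := by
    ext a
    simp [← mul_sum, mul_div_assoc]

theorem SS_apply (K : ℕ) (y : β K → ℝ) (a : α K) :
    SS K y a = (∑ j, y ⟨a.1, j⟩) / (2 ^ (K + a.1)) ^ 4 := rfl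

theorem cA (n : ℕ) : (Fintype.card (Fin (4 ^ n)) : ℝ) = (2 ^ n) ^ 2 := by
  rw [← pow_mul, mul_comm, pow_mul]
  norm_num

theorem cB (n : ℕ) : (Fintype.card (Fin (16 ^ n)) : ℝ) = (2 ^ n) ^ 4 := by
  rw [← pow_mul, mul_comm, pow_mul]
  norm_num

theorem le_sig {K : ℕ} (y : β K → ℝ) (k : Fin K) : ∑ j, y ⟨k, j⟩ ^ 4 ≤ ∑ b, y b ^ 4 := by
  rw [Fintype.sum_sigma]
  exact single_le_sum (f := fun k => ∑ j, y ⟨k, j⟩ ^ 4) (fun _ _ => by positivity) (mem_univ k)

theorem s1 (K : ℕ) (y : β K → ℝ) (a : α K) : SS K y a ^ 4 ≤ ∑ b, y b ^ 4 := by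
  refine le_trans ?_ ((pm (by positivity) (cB _) fun j => y ⟨a.1, j⟩).trans (le_sig y a.1))
  rw [mul_pow]
  exact le_mul_of_one_le_left (by positivity) (one_le_pow₀ (one_le_pow₀ one_le_two))

theorem SS_sg (K : ℕ) (b : β K) (l : Fin K) (i : Fin (4 ^ (K + l))) :
    SS K (sg b) ⟨l, i⟩ = if l = b.1 then 1 / (2 ^ (K + b.1)) ^ 4 else 0 := by
  obtain ⟨k, j⟩ := b
  rw [SS_apply]
  split_ifs with h
  · obtain rfl : l = k := h
    simp [sg_ite]
  · rw [sum_eq_zero fun j _ => sg_ne fun e => h (congrArg Sigma.fst e), zero_div]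

theorem s2 (K : ℕ) (b : β K) : ∑ a, SS K (sg b) a ^ 2 ≤ 1 := by
  simp only [Fintype.sum_sigma, SS_sg, sum_const, card_univ, nsmul_eq_mul, cA, ite_pow,
    zero_pow two_ne_zero, mul_ite, mul_zero, sum_ite_eq', mem_univ, if_true]
  have : (1 : ℝ) ≤ 2 ^ (K + b.1) := one_le_pow₀ one_le_two
  rw [div_pow, one_pow, mul_one_div, div_le_one (by positivity), ← pow_mul _ 4 2]
  exact pow_le_pow_right₀ this (show 2 ≤ 4 * 2 by norm_num)

theorem s3 (K : ℕ) (x x' : α K → ℝ) (y y' : β K → ℝ) (t : ℝ) (ht : 0 ≤ t)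
    (hx : ∀ a, (x' a = x a ∧ t ≤ |x a|) ∨ (x' a = 0 ∧ |x a| ≤ t))
    (hy : ∀ a, (y' a = y a ∧ t ≤ |y a|) ∨ (y' a = 0 ∧ |y a| ≤ t)) :
    (∑ a, (x' - SS K y') a ^ 2) ^ 2 ≤ 10000 * ((∑ a, (x - SS K y) a ^ 2) ^ 2 + ∑ b, y b ^ 4) := by
  obtain ⟨n, n0, hn⟩ : ∃ n : ℝ, 0 ≤ n ∧ n ^ 4 = ∑ b, y b ^ 4 :=
    ⟨_, Real.rpow_nonneg (by positivity) _,
      Real.rpow_inv_natCast_pow (by positivity) (by norm_num)⟩
  have a := sum_le_sum (s := univ) fun k _ => one (by positivity) ht n0 (cA (K + k.1)) (cB _)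
    (fun j => x ⟨k, j⟩) (fun j => x' ⟨k, j⟩) (fun j => y ⟨k, j⟩) (fun j => y' ⟨k, j⟩)
    (fun j => hx _) (fun j => hy _) ((le_sig y k).trans hn.ge)
  have b := geo (R := 2 * n) (mul_nonneg ht (show (0 : ℝ) ≤ 2 ^ K by positivity)) K
  simp only [mul_assoc, ← pow_add] at b
  rw [← Fin.sum_univ_eq_sum_range (fun k => if t * 2 ^ (K + k) ≤ 2 * n then
    (t * 2 ^ (K + k)) ^ 2 else 0)] at b
  simp only [sum_add_distrib, ← mul_sum, ← sum_div] at a
  rw [← Fintype.sum_sigma fun b => y b ^ 4, ← hn] at a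
  have c : n ^ 4 / n ^ 2 ≤ n ^ 2 := div_le_of_le_mul₀ (sq_nonneg _) (sq_nonneg _) (le_of_eq (by ring))
  have d : ∑ a, (x' - SS K y') a ^ 2 ≤ 9 * ∑ a, (x - SS K y) a ^ 2 + 65 * n ^ 2 := by
    simp only [Fintype.sum_sigma, Pi.sub_apply, SS_apply]
    linarith
  rw [← hn]
  refine (pow_le_pow_left₀ (by positivity) d 2).trans ?_
  nlinarith [sq_nonneg (9 * ∑ a, (x - SS K y) a ^ 2 - 65 * n ^ 2),
    sq_nonneg (∑ a, (x - SS K y) a ^ 2), sq_nonneg (n ^ 2)]

theorem bad (K : ℕ) {i q} (hq hi hq') {C : ℝ} {L : ℕ} (hK : K = L ^ 4) (hL : C < L) (L0 : 0 < L) :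
    (blk (Ω := α K → Bool) (i := i) (q := q) (SS K) hq hi hq' (s1 K) (s2 K) (s3 K)).Bad C := by
  classical
  let ξ : α K → ℝ := fun a => 1 / 2 ^ (K + a.1)
  let η : (α K → ℝ) →ₗ[ℝ] ℝ := ∑ a, ξ a • LinearMap.proj a
  have hη : ∀ w, η w = ∑ a, ξ a * w a := fun w => by simp [η]
  have hξ : ∑ a, ξ a ^ 2 = (L : ℝ) ^ 4 := by
    simp only [Fintype.sum_sigma, ξ, sum_const, card_univ, nsmul_eq_mul, cA]
    rw [sum_congr rfl (g := fun _ => (1 : ℝ)) fun k _ => by field_simp]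
    simp [hK]
  have k : ∀ c, (η ∘ₗ q ∘ₗ Ee 0) (Ph (SS K) i q c) = η (Xc c - SS K (Ye (Rc c))) := fun c => by
    simp [Ph2, hq, Pc0]
  have k1 : ∀ a, (η ∘ₗ q ∘ₗ Ee 0) (Ph (SS K) i q (sg (inl a))) = ξ a := fun a => by
    rw [k, show Xc (sg (inl a)) = sg a from sg_comp inl_injective a,
      show Ye (Rc (sg (inl a))) = 0 from sg_zero (by simp), map_zero, sub_zero, hη]
    simp [sg_ite]
  let e₀ : β K ⊕ ℕ × (α K → Bool) → ℝ := Sum.elim (fun b => 1 / 2 ^ (K + b.1)) 0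
  refine ⟨η ∘ₗ q ∘ₗ Ee 0, TT _ _ (0 + 1), L ^ 2, L, univ.map Function.Embedding.inl, e₀,
    by positivity, by positivity, fun e => ?_, fun γ hγ γ' h' => ?_, fun T => ?_, ?_⟩
  · have a := sum_mul_sq_le_sq_mul_sq univ ξ (q (Ee 0 e))
    have b := pow_le_pow_left₀ (sq_nonneg _) a 2
    have c : ∑ ω, Ee 0 e ω ^ 4 ≤ _ := le_trans (le_add_of_nonneg_left (by positivity)) (z_le e 0)
    rw [hξ, ← hη, mul_pow, ← pow_mul, ← pow_mul] at b
    rw [← pow_mul]
    exact b.trans (mul_le_mul_of_nonneg_left ((hq' _).trans c) (by positivity))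
  · obtain ⟨a, -, rfl⟩ := mem_map.1 hγ
    refine le_trans ?_ (congrArg abs (k1 a)).ge
    rcases γ' with a' | b | p
    · simp at h'
    · refine (congrArg abs (k _)).le.trans ?_
      rw [show Xc (sg (inr (inl b))) = 0 from sg_zero (by simp), show Ye (Rc (sg (inr (inl b)))) =
        sg b from sg_comp (inr_injective.comp inl_injective) b, zero_sub, map_neg, abs_neg, hη]
      simp only [Fintype.sum_sigma, SS_sg, ξ, sum_const, card_univ, nsmul_eq_mul, cA,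
        mul_ite, mul_zero, sum_ite_eq', mem_univ, if_true]
      rw [abs_of_pos (by positivity), abs_of_pos (by positivity), show ((2 : ℝ) ^ (K + b.1)) ^ 2 *
        (1 / 2 ^ (K + b.1) * (1 / (2 ^ (K + b.1)) ^ 4)) = 1 / (2 ^ (K + b.1)) ^ 3 by field_simp,
        ← pow_mul]
      exact one_div_le_one_div_of_le (by positivity)
        (pow_le_pow_right₀ one_le_two (by have := a.1.2; omega))
    · refine (congrArg abs (k _)).le.trans ?_
      rw [show Xc (sg (inr (inr p))) = 0 from sg_zero (by simp),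
        show Ye (Rc (sg (inr (inr p)))) = 0 from sg_zero (by simp)]
      simp
  · obtain ⟨M, hM⟩ := le_TT T
    refine (hM _).trans (le_of_eq ?_)
    have : ∀ m, Ee m e₀ = 0 := fun _ => rfl
    have e : ∀ k j, Ye e₀ ⟨k, j⟩ = 1 / 2 ^ (K + k) := fun _ _ => rfl
    simp only [sum_TT, this, Fintype.sum_sigma, e, sum_const, card_univ, nsmul_eq_mul, cB]
    rw [sum_congr rfl (g := fun _ => (1 : ℝ)) fun k _ => by field_simp]
    simp [hK]
  · rw [sum_map, sum_congr rfl (g := fun a => ξ a ^ 2) fun a _ => ?_, hξ]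
    · have : (0 : ℝ) < L := by exact_mod_cast L0
      nlinarith [mul_lt_mul_of_pos_right hL (pow_pos this 3)]
    · refine (congrArg₂ (· * ·) (k1 a) (congrFun (Ps1 (SS K) i q e₀) a)).trans ?_
      have : Ee 0 e₀ = 0 := rfl
      have e : ∀ k j, Ye e₀ ⟨k, j⟩ = 1 / 2 ^ (K + k) := fun _ _ => rfl
      simp only [this, map_zero, zero_add, SS_apply, e, sum_const, card_univ, nsmul_eq_mul, cB, ξ]
      field_simp

theorem main : ∃ (J Γ : Type) (_ : Countable J) (_ : Infinite J) (_ : Countable Γ) (_ : Infinite Γ)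
    (S : Sys J Γ 100), ∀ C, S.Bad C := by
  classical
  choose i q h1 h2 h3 using fun K => khin (α := α K)
  refine ⟨Σ K, β K ⊕ ℕ × (α K → Bool), Σ K, α K ⊕ (β K ⊕ ℕ × (α K → Bool)), inferInstance,
    .of_injective (Sigma.mk 0) sigma_mk_injective, inferInstance,
    .of_injective (Sigma.mk 0) sigma_mk_injective,
    sig (by norm_num) fun K => blk (SS K) (h1 K) (h2 K) (h3 K) (s1 K) (s2 K) (s3 K), fun C => ?_⟩
  obtain ⟨L, hL⟩ := exists_nat_gt |C|
  exact sig_bad _ _ (L ^ 4) (bad _ _ _ _ rfl ((le_abs_self C).trans_lt hL)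
    (by exact_mod_cast (abs_nonneg C).trans_lt hL))

end Pool.Agent.H.MP_ec23a5
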